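import Mathlib
import Pool.Agent.Helper353.SY.Defs
import Pool.Agent.Helper353.SY.P_seymour

set_option autoImplicit false

namespace Pool.Agent.Results.MP_b6b2d3_co.SmallRatio

/-- Seymour's conjecture on the `r`-th power of a Hamiltonian cycle for all `r ≥ 1` and all
`n < 4 (r + 1)`: a graph on `n` vertices with minimum degree at least `r n / (r + 1)` contains the
`r`-th power of `C_n`. -/
theorem result :
    ∀ (r : ℕ), 1 ≤ r →
    ∀ (V : Type) [Fintype V] [DecidableEq V] (G : SimpleGraph V) [DecidableRel G.Adj],
      Fintype.card V < 4 * (r + 1) →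
      r * Fintype.card V ≤ (r + 1) * G.minDegree →
      ∃ σ : Fin (Fintype.card V) ≃ V,
        ∀ i k : Fin (Fintype.card V), k ≠ i →
          (k.val + Fintype.card V - i.val) % Fintype.card V ≤ r →
            G.Adj (σ i) (σ k) := by
  intro r _ V _ _ G _ hn hd
  exact SY.seymour r V G hn hd

end Pool.Agent.Results.MP_b6b2d3_co.SmallRatio
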